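import Pool.Agent.Helper42.S8.Ex

/-!
Weighted sums of squares with packed integer coefficients, and the check of the identity.
-/

set_option autoImplicit false

namespace Pool.S8

/-- a factor `c m1 + d m2`, or `c m1 - d m2` if `s`; `b1`, `b2` are the shifts of `m1`, `m2` -/
structure Fac where
  c : ℕ
  m1 : Mon
  b1 : ℕ
  s : Bool
  d : ℕ
  m2 : Mon
  b2 : ℕ

/-- multiplication by the value of the factor -/
def Fac.ap (f : Fac) (x : ℕ) : ℕ := match f.s with
  | false => Nat.add (Nat.shiftLeft (Nat.mul f.c x) f.b1) (Nat.shiftLeft (Nat.mul f.d x) f.b2)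
  | true => Nat.sub (Nat.shiftLeft (Nat.mul f.c x) f.b1) (Nat.shiftLeft (Nat.mul f.d x) f.b2)

def Fac.V (f : Fac) : ℕ := f.ap 1

noncomputable def Fac.re (f : Fac) (x : Pnt) : ℝ := match f.s with
  | false => f.c * f.m1.val x + f.d * f.m2.val x
  | true => f.c * f.m1.val x - f.d * f.m2.val x

lemma Fac.ap_eq (f : Fac) (x : ℕ) : f.ap x = x * f.V := by
  unfold Fac.V Fac.ap
  cases f.s
  · show (f.c * x) <<< f.b1 + (f.d * x) <<< f.b2 = x * ((f.c * 1) <<< f.b1 + (f.d * 1) <<< f.b2)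
    simp only [Nat.shiftLeft_eq]; ring
  · show (f.c * x) <<< f.b1 - (f.d * x) <<< f.b2 = x * ((f.c * 1) <<< f.b1 - (f.d * 1) <<< f.b2)
    simp only [Nat.shiftLeft_eq]
    rw [Nat.mul_sub]
    congr 1 <;> ring

/-- an element of the basis: the monomial `m` times the factor `f`; `a` is the shift of `m`;
`e` marks the end of a group of elements with the same factor -/
structure Itm where
  m : Mon
  a : ℕ
  f : Fac
  e : Bool

/-- multiplication by the value of the element -/
def Itm.ap (i : Itm) (x : ℕ) : ℕ := i.f.ap (Nat.shiftLeft x i.a)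

def Itm.v (i : Itm) : ℕ := i.ap 1

noncomputable def Itm.re (i : Itm) (x : Pnt) : ℝ := i.m.val x * i.f.re x

lemma Itm.v_eq (i : Itm) : i.v = 2 ^ i.a * i.f.V := by
  unfold Itm.v Itm.ap
  rw [Fac.ap_eq]
  show 1 <<< i.a * _ = _
  rw [Nat.shiftLeft_eq, one_mul]

lemma Itm.ap_eq (i : Itm) (x : ℕ) : i.ap x = x * i.v := by
  rw [Itm.v_eq]
  unfold Itm.ap
  rw [Fac.ap_eq]
  show x <<< i.a * _ = _
  rw [Nat.shiftLeft_eq]; ring

/-- `sum of d_j z_j`, `d_j` the digits of `p` in base `B` -/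
def lin (B : ℕ) : List Itm → ℕ → ℕ → ℕ
  | [], _, acc => acc
  | i :: it, p, acc => match i.e with
    | false => lin B it (Nat.div p B) (Nat.add acc (Nat.shiftLeft (Nat.mod p B) i.a))
    | true => Nat.add (i.f.ap (Nat.add acc (Nat.shiftLeft (Nat.mod p B) i.a)))
        (lin B it (Nat.div p B) 0)

/-- the value of the factor of the current group -/
def eb : List Itm → ℕ
  | [] => 1
  | i :: it => match i.e with
    | false => eb it
    | true => i.f.V

/-- `(A - T)²` -/
def sqd (A T : ℕ) : ℕ := Nat.mul (Nat.add (Nat.sub A T) (Nat.sub T A)) (Nat.add (Nat.sub A T) (Nat.sub T A))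

/-- sum of the squares; `tot` is the sum of the elements -/
def sqs (B off : ℕ) : List Itm → List ℕ → ℕ → ℕ
  | [], _, _ => 0
  | i :: it, Ls, tot => match Ls with
    | [] => 0
    | L :: Ls' => Nat.add (sqd (lin B (i :: it) L 0) (Nat.mul off tot))
        (sqs B off it Ls' (Nat.sub tot i.v))

/-- positive part of the mixed terms -/
def eps (B : ℕ) : List Itm → List ℕ → ℕ
  | [], _ => 0
  | i :: it, Es => match Es with
    | [] => 0
    | E :: Es' => Nat.add (i.ap (lin B (i :: it) E 0)) (eps B it Es')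

/-- negative part of the mixed terms -/
def ens (off : ℕ) : List Itm → List ℕ → ℕ → ℕ
  | [], _, _ => 0
  | i :: it, Es, tot => match Es with
    | [] => 0
    | _ :: Es' => Nat.add (i.ap (Nat.mul off tot)) (ens off it Es' (Nat.sub tot i.v))

def tot : List Itm → ℕ
  | [] => 0
  | i :: it => Nat.add i.v (tot it)

/-- sum of the squares of the basis elements -/
def z2 : List Itm → ℕ
  | [] => 0
  | i :: it => Nat.add (Nat.mul i.v i.v) (z2 it)

/-- `d * z2 it`, nothing is computed for `d = 0` -/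
def dz2 (d : ℕ) (it : List Itm) : ℕ := match d with
  | 0 => 0
  | n + 1 => Nat.mul (Nat.succ n) (z2 it)

lemma dz2_eq (d : ℕ) (it : List Itm) : dz2 d it = d * z2 it := by
  cases d with
  | zero => rw [Nat.zero_mul]; rfl
  | succ n => rfl

/-! ### real values -/

/-- `sum of (d_j - off) z_j(x)` -/
noncomputable def rl (B off : ℕ) (x : Pnt) : List Itm → ℕ → ℝ
  | [], _ => 0
  | i :: it, p => (((p % B : ℕ) : ℝ) - off) * i.re x + rl B off x it (p / B)

noncomputable def rsq (B off : ℕ) (x : Pnt) : List Itm → List ℕ → ℝ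
  | [], _ => 0
  | i :: it, Ls => match Ls with
    | [] => 0
    | L :: Ls' => rl B off x (i :: it) L ^ 2 + rsq B off x it Ls'

noncomputable def rex (B off : ℕ) (x : Pnt) : List Itm → List ℕ → ℝ
  | [], _ => 0
  | i :: it, Es => match Es with
    | [] => 0
    | E :: Es' => rl B off x (i :: it) E * i.re x + rex B off x it Es'

noncomputable def rz2 (x : Pnt) : List Itm → ℝ
  | [] => 0
  | i :: it => i.re x ^ 2 + rz2 x it

noncomputable def rab (x : Pnt) : List Itm → ℝ
  | [] => 0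
  | i :: it => |i.re x| + rab x it

lemma rsq_nonneg (B off : ℕ) (x : Pnt) (it : List Itm) (Ls : List ℕ) : 0 ≤ rsq B off x it Ls := by
  induction it generalizing Ls with
  | nil => exact le_rfl
  | cons i it ih =>
    cases Ls with
    | nil => exact le_rfl
    | cons L Ls => exact add_nonneg (sq_nonneg _) (ih Ls)

lemma rz2_nonneg (x : Pnt) (it : List Itm) : 0 ≤ rz2 x it := by
  induction it with
  | nil => exact le_rfl
  | cons i it ih => exact add_nonneg (sq_nonneg _) ih

lemma rab_nonneg (x : Pnt) (it : List Itm) : 0 ≤ rab x it := by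
  induction it with
  | nil => exact le_rfl
  | cons i it ih => exact add_nonneg (abs_nonneg _) ih

lemma dig_le {B off : ℕ} (hB : B = 2 * off) (h0 : 0 < off) (p : ℕ) :
    |((p % B : ℕ) : ℝ) - off| ≤ off := by
  have h1 : p % B < B := Nat.mod_lt _ (by omega)
  have h2 : ((p % B : ℕ) : ℝ) ≤ 2 * off := by
    have : p % B ≤ 2 * off := by omega
    exact_mod_cast this
  have h3 : (0 : ℝ) ≤ ((p % B : ℕ) : ℝ) := Nat.cast_nonneg _
  rw [abs_le]
  constructor <;> linarith

lemma rl_abs {B off : ℕ} (hB : B = 2 * off) (h0 : 0 < off) (x : Pnt) (it : List Itm) (p : ℕ) :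
    |rl B off x it p| ≤ off * rab x it := by
  induction it generalizing p with
  | nil => simp [rl, rab]
  | cons i it ih =>
    have h1 := dig_le hB h0 p
    calc |rl B off x (i :: it) p| ≤ |(((p % B : ℕ) : ℝ) - off) * i.re x|
          + |rl B off x it (p / B)| := abs_add_le _ _
      _ ≤ off * |i.re x| + off * rab x it := by
        refine add_le_add ?_ (ih _)
        rw [abs_mul]
        exact mul_le_mul_of_nonneg_right h1 (abs_nonneg _)
      _ = _ := by rw [rab]; ring

/-- `|z_0| (|z_0| + sum) ≤ ...` -/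
lemma rab_le (x : Pnt) (it : List Itm) (t : ℝ) :
    2 * (|t| * rab x it) ≤ it.length * t ^ 2 + rz2 x it := by
  induction it with
  | nil => simp [rab, rz2]
  | cons i it ih =>
    have h1 : 2 * (|t| * |i.re x|) ≤ t ^ 2 + i.re x ^ 2 := by
      have := sq_nonneg (|t| - |i.re x|)
      nlinarith [sq_abs t, sq_abs (i.re x)]
    rw [rab, rz2, List.length_cons]
    push_cast
    nlinarith

lemma rex_abs {B off : ℕ} (hB : B = 2 * off) (h0 : 0 < off) (x : Pnt) (it : List Itm)
    (Es : List ℕ) : 2 * |rex B off x it Es| ≤ (it.length + 1) * off * rz2 x it := by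
  induction it generalizing Es with
  | nil => simp [rex, rz2]
  | cons i it ih =>
    have hz := rz2_nonneg x it
    have hoff : (0 : ℝ) ≤ off := Nat.cast_nonneg _
    cases Es with
    | nil =>
      rw [rex]
      simp only [abs_zero, mul_zero]
      have := rz2_nonneg x (i :: it)
      positivity
    | cons E Es =>
      have h1 := rl_abs hB h0 x (i :: it) E
      have h2 := ih Es
      have h3 := rab_le x it (i.re x)
      have h4 : |rl B off x (i :: it) E * i.re x| ≤
          off * (|i.re x| + rab x it) * |i.re x| := by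
        rw [abs_mul]
        exact mul_le_mul_of_nonneg_right h1 (abs_nonneg _)
      have h5 : |rex B off x (i :: it) (E :: Es)| ≤
          off * (|i.re x| + rab x it) * |i.re x| + |rex B off x it Es| :=
        (abs_add_le _ _).trans (add_le_add h4 le_rfl)
      have h6 : |i.re x| * |i.re x| = i.re x ^ 2 := by rw [← sq, sq_abs]
      have h7 : 2 * (off * (|i.re x| + rab x it) * |i.re x|) ≤
          off * (2 * i.re x ^ 2 + (it.length * i.re x ^ 2 + rz2 x it)) := by
        have : 2 * (off * (|i.re x| + rab x it) * |i.re x|) =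
            off * (2 * (|i.re x| * |i.re x|) + 2 * (|i.re x| * rab x it)) := by ring
        rw [this, h6]
        exact mul_le_mul_of_nonneg_left (by linarith) hoff
      rw [List.length_cons, rz2]
      push_cast
      have h8 : 0 ≤ (off : ℝ) * rz2 x it := by positivity
      nlinarith

/-! ### representation -/

section rep
variable {k : ℕ} {r : Rad} {N : Bd} {nf : ℕ}

/-- the shifts are right, the monomials are in the box, the norm is at most `nf` -/
def Itm.Ok (k : ℕ) (r : Rad) (N : Bd) (nf : ℕ) (i : Itm) : Prop :=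
  (i.m.add i.f.m1).In N ∧ (i.m.add i.f.m2).In N ∧ i.a = k * i.m.code r ∧
    i.f.b1 = k * i.f.m1.code r ∧ i.f.b2 = k * i.f.m2.code r ∧ i.f.c + i.f.d ≤ nf ∧
    (i.f.s = true → i.f.d <<< i.f.b2 ≤ i.f.c <<< i.f.b1)

def Gd (k : ℕ) (r : Rad) (N : Bd) (nf : ℕ) : List Itm → Prop
  | [] => True
  | i :: it => i.Ok k r N nf ∧ i.f.V = eb (i :: it) ∧ Gd k r N nf it

/-- `sum of d_j z_j` without accumulator -/
def sd (B : ℕ) : List Itm → ℕ → ℕ
  | [], _ => 0
  | i :: it, p => p % B * i.v + sd B it (p / B)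

lemma lin_eq {B : ℕ} (it : List Itm) (h : Gd k r N nf it) (p acc : ℕ) :
    lin B it p acc = acc * eb it + sd B it p := by
  induction it generalizing p acc with
  | nil => simp [lin, eb, sd]
  | cons i it ih =>
    obtain ⟨_, h3, h4⟩ := h
    rw [lin, sd, Itm.v_eq, h3]
    rw [eb] at h3 ⊢
    rcases ho : i.e with _ | _
    · simp only [ho] at h3 ⊢
      rw [ih h4]
      show (acc + (p % B) <<< i.a) * eb it + sd B it (p / B) = _
      rw [Nat.shiftLeft_eq]; ring
    · simp only [ho] at h3 ⊢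
      rw [ih h4, Fac.ap_eq]
      show (acc + (p % B) <<< i.a) * i.f.V + (0 * eb it + sd B it (p / B)) = _
      rw [Nat.shiftLeft_eq]; ring

lemma two_pow_code (m : Mon) : ((2 ^ k : ℕ) : ℤ) ^ m.code r = ((2 ^ (k * m.code r) : ℕ) : ℤ) := by
  push_cast; rw [pow_mul]

lemma rep_item {i : Itm} (h : i.Ok k r N nf) {x : Pnt} :
    Rep ((2 ^ k : ℕ) : ℤ) r x N nf (i.v : ℤ) (i.re x) := by
  obtain ⟨h1, h2, h3, h4, h5, h6, h7⟩ := h
  have r1 := Rep.mon (w := ((2 ^ k : ℕ) : ℤ)) (r := r) (x := x) (i.f.c : ℤ) h1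
  rw [two_pow_code, Mon.code_add, Mon.val_add] at r1
  unfold Itm.re Fac.re
  rw [Itm.v_eq]
  unfold Fac.V Fac.ap
  rcases hs : i.f.s with _ | _
  · have r2 := Rep.mon (w := ((2 ^ k : ℕ) : ℤ)) (r := r) (x := x) (i.f.d : ℤ) h2
    rw [two_pow_code, Mon.code_add, Mon.val_add] at r2
    have r3 := (r1.add r2).mono (c' := nf) (by simpa using h6)
    have e1 : (i.f.c : ℤ) * ((2 ^ (k * (i.m.code r + i.f.m1.code r)) : ℕ) : ℤ)
        + (i.f.d : ℤ) * ((2 ^ (k * (i.m.code r + i.f.m2.code r)) : ℕ) : ℤ) =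
        ((2 ^ i.a * (Nat.add (Nat.shiftLeft (Nat.mul i.f.c 1) i.f.b1)
          (Nat.shiftLeft (Nat.mul i.f.d 1) i.f.b2)) : ℕ) : ℤ) := by
      show _ = ((2 ^ i.a * ((i.f.c * 1) <<< i.f.b1 + (i.f.d * 1) <<< i.f.b2) : ℕ) : ℤ)
      rw [Nat.shiftLeft_eq, Nat.shiftLeft_eq, h3, h4, h5, Nat.mul_add k, Nat.mul_add k, pow_add,
        pow_add]
      push_cast; ring
    rw [e1] at r3
    have e2 : ((i.f.c : ℤ) : ℝ) * (i.m.val x * i.f.m1.val x)
        + ((i.f.d : ℤ) : ℝ) * (i.m.val x * i.f.m2.val x) =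
        i.m.val x * (i.f.c * i.f.m1.val x + i.f.d * i.f.m2.val x) := by
      push_cast; ring
    rw [e2] at r3
    exact r3
  · have r2 := Rep.mon (w := ((2 ^ k : ℕ) : ℤ)) (r := r) (x := x) (-(i.f.d : ℤ)) h2
    rw [two_pow_code, Mon.code_add, Mon.val_add] at r2
    have r3 := (r1.add r2).mono (c' := nf) (by simpa using h6)
    have h8 := h7 hs
    have e1 : (i.f.c : ℤ) * ((2 ^ (k * (i.m.code r + i.f.m1.code r)) : ℕ) : ℤ)
        + -(i.f.d : ℤ) * ((2 ^ (k * (i.m.code r + i.f.m2.code r)) : ℕ) : ℤ) =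
        ((2 ^ i.a * (Nat.sub (Nat.shiftLeft (Nat.mul i.f.c 1) i.f.b1)
          (Nat.shiftLeft (Nat.mul i.f.d 1) i.f.b2)) : ℕ) : ℤ) := by
      show _ = ((2 ^ i.a * ((i.f.c * 1) <<< i.f.b1 - (i.f.d * 1) <<< i.f.b2) : ℕ) : ℤ)
      rw [Nat.cast_mul, Nat.cast_sub (by rw [mul_one, mul_one]; exact h8)]
      rw [Nat.shiftLeft_eq, Nat.shiftLeft_eq, h3, h4, h5, Nat.mul_add k, Nat.mul_add k, pow_add,
        pow_add]
      push_cast; ring
    rw [e1] at r3
    have e2 : ((i.f.c : ℤ) : ℝ) * (i.m.val x * i.f.m1.val x)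
        + ((-(i.f.d : ℤ) : ℤ) : ℝ) * (i.m.val x * i.f.m2.val x) =
        i.m.val x * (i.f.c * i.f.m1.val x - i.f.d * i.f.m2.val x) := by
      push_cast; ring
    rw [e2] at r3
    exact r3

lemma rep_lin {B off : ℕ} (hB : B = 2 * off) (h0 : 0 < off) {x : Pnt} (it : List Itm)
    (h : Gd k r N nf it) (p : ℕ) :
    Rep ((2 ^ k : ℕ) : ℤ) r x N (it.length * (off * nf)) ((sd B it p : ℤ) - off * (tot it : ℤ))
      (rl B off x it p) := by
  induction it generalizing p with
  | nil =>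
    have := Rep.zero (w := ((2 ^ k : ℕ) : ℤ)) (r := r) (x := x) N 0
    simpa [sd, tot, rl] using this
  | cons i it ih =>
    have h1 := rep_item h.1 (x := x)
    have h2 := (h1.smul (((p % B : ℕ) : ℤ) - off)).add (ih h.2.2 (p / B))
    have h3 : (((p % B : ℕ) : ℤ) - off).natAbs ≤ off := by
      have : p % B < B := Nat.mod_lt _ (by omega)
      omega
    have e1 : (((p % B : ℕ) : ℤ) - off) * (i.v : ℤ)
        + ((sd B it (p / B) : ℤ) - off * (tot it : ℤ)) =
        ((sd B (i :: it) p : ℕ) : ℤ) - off * ((tot (i :: it) : ℕ) : ℤ) := by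
      have e2 : tot (i :: it) = i.v + tot it := rfl
      rw [sd, e2]
      generalize p % B = d
      push_cast; ring
    have e3 : (((((p % B : ℕ) : ℤ) - off : ℤ)) : ℝ) * i.re x + rl B off x it (p / B) =
        rl B off x (i :: it) p := by
      rw [rl]
      generalize p % B = d
      push_cast; ring
    rw [e1, e3] at h2
    refine h2.mono ?_
    rw [List.length_cons]
    nlinarith [Nat.mul_le_mul_right nf h3]

lemma sqd_eq (A T : ℕ) : ((sqd A T : ℕ) : ℤ) = ((A : ℤ) - T) * ((A : ℤ) - T) := by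
  have : sqd A T = (A - T + (T - A)) * (A - T + (T - A)) := rfl
  rw [this]
  rcases le_total A T with h | h
  · rw [Nat.sub_eq_zero_of_le h]
    push_cast [Nat.cast_sub h]; ring
  · rw [Nat.sub_eq_zero_of_le h]
    push_cast [Nat.cast_sub h]; ring

lemma tot_sub (i : Itm) (it : List Itm) : Nat.sub (tot (i :: it)) i.v = tot it := by
  show (i.v + tot it) - i.v = _
  omega

lemma rep_sqs {B off : ℕ} (hB : B = 2 * off) (h0 : 0 < off) {x : Pnt} (it : List Itm)
    (h : Gd k r N nf it) (Ls : List ℕ) {n : ℕ} (hn : it.length ≤ n) :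
    Rep ((2 ^ k : ℕ) : ℤ) r x (N.add N) (Ls.length * ((n * (off * nf)) * (n * (off * nf))))
      ((sqs B off it Ls (tot it) : ℕ) : ℤ) (rsq B off x it Ls) := by
  induction it generalizing Ls with
  | nil => exact (Rep.zero _ _)
  | cons i it ih =>
    cases Ls with
    | nil => exact (Rep.zero _ _)
    | cons L Ls =>
      have h1 := rep_lin hB h0 (x := x) (i :: it) h L
      have h2 := (h1.mono (Nat.mul_le_mul_right (off * nf) hn))
      have h3 := (h2.mul h2).add (ih h.2.2 Ls ((Nat.le_succ _).trans hn))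
      have e1 : ((sqs B off (i :: it) (L :: Ls) (tot (i :: it)) : ℕ) : ℤ) =
          ((sd B (i :: it) L : ℤ) - off * (tot (i :: it) : ℤ))
            * ((sd B (i :: it) L : ℤ) - off * (tot (i :: it) : ℤ))
          + ((sqs B off it Ls (tot it) : ℕ) : ℤ) := by
        rw [sqs, tot_sub, lin_eq (i :: it) h, zero_mul, zero_add]
        show ((sqd (sd B (i :: it) L) (off * tot (i :: it)) + sqs B off it Ls (tot it) : ℕ) : ℤ) = _
        push_cast
        rw [sqd_eq]
        push_cast; ring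
      have e2 : rl B off x (i :: it) L * rl B off x (i :: it) L + rsq B off x it Ls =
          rsq B off x (i :: it) (L :: Ls) := by
        rw [rsq]; ring
      rw [← e1, e2] at h3
      refine h3.mono (le_of_eq ?_)
      rw [List.length_cons]; ring

lemma rep_ex {B off : ℕ} (hB : B = 2 * off) (h0 : 0 < off) {x : Pnt} (it : List Itm)
    (h : Gd k r N nf it) (Es : List ℕ) {n : ℕ} (hn : it.length ≤ n) :
    Rep ((2 ^ k : ℕ) : ℤ) r x (N.add N) (Es.length * ((n * (off * nf)) * nf))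
      (((eps B it Es : ℕ) : ℤ) - ((ens off it Es (tot it) : ℕ) : ℤ)) (rex B off x it Es) := by
  induction it generalizing Es with
  | nil => exact (Rep.zero _ _)
  | cons i it ih =>
    cases Es with
    | nil => exact (Rep.zero _ _)
    | cons E Es =>
      have h1 := rep_lin hB h0 (x := x) (i :: it) h E
      have h2 := (h1.mono (Nat.mul_le_mul_right (off * nf) hn))
      have h3 := (h2.mul (rep_item h.1 (x := x))).add (ih h.2.2 Es ((Nat.le_succ _).trans hn))
      have e1 : ((eps B (i :: it) (E :: Es) : ℕ) : ℤ)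
            - ((ens off (i :: it) (E :: Es) (tot (i :: it)) : ℕ) : ℤ) =
          ((sd B (i :: it) E : ℤ) - off * (tot (i :: it) : ℤ)) * (i.v : ℤ)
          + (((eps B it Es : ℕ) : ℤ) - ((ens off it Es (tot it) : ℕ) : ℤ)) := by
        rw [eps, ens, tot_sub, lin_eq (i :: it) h, zero_mul, zero_add, Itm.ap_eq, Itm.ap_eq]
        show ((sd B (i :: it) E * i.v + eps B it Es : ℕ) : ℤ)
          - (((off * tot (i :: it)) * i.v + ens off it Es (tot it) : ℕ) : ℤ) = _
        push_cast; ring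
      have e2 : rl B off x (i :: it) E * i.re x + rex B off x it Es =
          rex B off x (i :: it) (E :: Es) := rfl
      rw [← e1, e2] at h3
      refine h3.mono (le_of_eq ?_)
      rw [List.length_cons]; ring

lemma rep_z2 {x : Pnt} (it : List Itm) (h : Gd k r N nf it) :
    Rep ((2 ^ k : ℕ) : ℤ) r x (N.add N) (it.length * (nf * nf)) ((z2 it : ℕ) : ℤ)
      (rz2 x it) := by
  induction it with
  | nil => exact (Rep.zero _ _)
  | cons i it ih =>
    have h1 := rep_item h.1 (x := x)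
    have h2 := (h1.mul h1).add (ih h.2.2)
    have e1 : ((z2 (i :: it) : ℕ) : ℤ) = (i.v : ℤ) * (i.v : ℤ) + ((z2 it : ℕ) : ℤ) := by
      rw [z2]
      show ((i.v * i.v + z2 it : ℕ) : ℤ) = _
      push_cast; ring
    have e2 : i.re x * i.re x + rz2 x it = rz2 x (i :: it) := by rw [rz2]; ring
    rw [← e1, e2] at h2
    refine h2.mono (le_of_eq ?_)
    rw [List.length_cons]; ring

end rep

/-! ### blocks -/

structure Blk where
  mult : Ex
  N : Bd
  nf : ℕ
  its : List Itm
  B : ℕ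
  off : ℕ
  L : List ℕ
  BE : ℕ
  offE : ℕ
  E : List ℕ
  dl : ℕ

def Mon.inb (m : Mon) (B : Bd) : Bool :=
  Nat.ble m.a B.a && Nat.ble m.b B.b && Nat.ble m.d B.d && Nat.ble m.e B.e &&
    Nat.ble m.f B.f && Nat.ble m.g B.g && Nat.ble m.h B.h &&
    Nat.beq (m.b + m.c + 2 * m.d + 2 * m.e) B.w

lemma Mon.inb_sound {m : Mon} {B : Bd} (h : m.inb B = true) : m.In B := by
  simp only [Mon.inb, Bool.and_eq_true, Nat.ble_eq] at h
  obtain ⟨⟨⟨⟨⟨⟨⟨h1, h2⟩, h3⟩, h4⟩, h5⟩, h6⟩, h8⟩, h7⟩ := h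
  exact ⟨h1, h2, h3, h4, h5, h6, h8, Nat.eq_of_beq_eq_true h7⟩

def eqF (f g : Fac) : Bool :=
  Nat.beq f.c g.c && Nat.beq f.b1 g.b1 && Nat.beq f.d g.d && Nat.beq f.b2 g.b2 &&
    (match f.s, g.s with
      | false, false => true
      | true, true => true
      | _, _ => false)

lemma eqF_sound {f g : Fac} (h : eqF f g = true) : f.V = g.V := by
  simp only [eqF, Bool.and_eq_true] at h
  obtain ⟨⟨⟨⟨h1, h2⟩, h3⟩, h4⟩, h5⟩ := h
  have h1 := Nat.eq_of_beq_eq_true h1
  have h2 := Nat.eq_of_beq_eq_true h2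
  have h3 := Nat.eq_of_beq_eq_true h3
  have h4 := Nat.eq_of_beq_eq_true h4
  have h6 : f.s = g.s := by
    revert h5
    cases f.s <;> cases g.s <;> simp
  unfold Fac.V Fac.ap
  rw [h1, h2, h3, h4, h6]

/-- the next element has the same factor -/
def nxt (i : Itm) : List Itm → Bool
  | [] => false
  | j :: _ => eqF i.f j.f

def Itm.okb (k : ℕ) (r : Rad) (N : Bd) (nf : ℕ) (i : Itm) : Bool :=
  (i.m.add i.f.m1).inb N && (i.m.add i.f.m2).inb N && Nat.beq i.a (k * i.m.code r) &&
    Nat.beq i.f.b1 (k * i.f.m1.code r) && Nat.beq i.f.b2 (k * i.f.m2.code r) &&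
    Nat.ble (i.f.c + i.f.d) nf &&
    (match i.f.s with
      | false => true
      | true => Nat.ble (Nat.shiftLeft i.f.d i.f.b2) (Nat.shiftLeft i.f.c i.f.b1))

lemma Itm.okb_sound {k : ℕ} {r : Rad} {N : Bd} {nf : ℕ} {i : Itm} (h : i.okb k r N nf = true) :
    i.Ok k r N nf := by
  simp only [Itm.okb, Bool.and_eq_true] at h
  obtain ⟨⟨⟨⟨⟨⟨h1, h2⟩, h3⟩, h4⟩, h5⟩, h6⟩, h7⟩ := h
  refine ⟨Mon.inb_sound h1, Mon.inb_sound h2, Nat.eq_of_beq_eq_true h3,
    Nat.eq_of_beq_eq_true h4, Nat.eq_of_beq_eq_true h5, Nat.le_of_ble_eq_true h6, ?_⟩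
  intro hs
  rw [hs] at h7
  exact Nat.le_of_ble_eq_true h7

def gdb (k : ℕ) (r : Rad) (N : Bd) (nf : ℕ) : List Itm → Bool
  | [] => true
  | i :: it => i.okb k r N nf && (i.e || nxt i it) && gdb k r N nf it

lemma gdb_sound {k : ℕ} {r : Rad} {N : Bd} {nf : ℕ} {it : List Itm}
    (h : gdb k r N nf it = true) : Gd k r N nf it := by
  induction it with
  | nil => trivial
  | cons i it ih =>
    simp only [gdb, Bool.and_eq_true, Bool.or_eq_true] at h
    obtain ⟨⟨h1, h2⟩, h3⟩ := h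
    have h4 := ih h3
    refine ⟨Itm.okb_sound h1, ?_, h4⟩
    rw [eb]
    rcases he : i.e with _ | _
    · rw [he] at h2
      cases it with
      | nil => simp [nxt] at h2
      | cons j it =>
        have h5 : eqF i.f j.f = true := by simpa [nxt] using h2
        show i.f.V = eb (j :: it)
        rw [eqF_sound h5]
        exact h4.2.1
    · rfl

def len (l : List Itm) : ℕ := match l with
  | [] => 0
  | _ :: it => Nat.succ (len it)

lemma len_eq (l : List Itm) : len l = l.length := by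
  induction l with
  | nil => rfl
  | cons i it ih => rw [len, ih]; rfl

def lenN (l : List ℕ) : ℕ := match l with
  | [] => 0
  | _ :: it => Nat.succ (lenN it)

lemma lenN_eq (l : List ℕ) : lenN l = l.length := by
  induction l with
  | nil => rfl
  | cons i it ih => rw [lenN, ih]; rfl

def emp (l : List ℕ) : Bool := match l with
  | [] => true
  | _ :: _ => false

def Blk.ok (b : Blk) (k : ℕ) (r : Rad) : Bool :=
  gdb k r b.N b.nf b.its && b.mult.ok && Nat.beq b.B (2 * b.off) && Nat.blt 0 b.off &&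
    Nat.beq b.BE (2 * b.offE) && Nat.blt 0 b.offE &&
    (emp b.E || Nat.ble ((len b.its + 1) * b.offE) (2 * b.dl))

/-- positive and negative part of the value of the form -/
def Blk.vp (b : Blk) : ℕ :=
  Nat.add (sqs b.B b.off b.its b.L (tot b.its))
    (Nat.add (dz2 b.dl b.its) (eps b.BE b.its b.E))

def Blk.vn (b : Blk) : ℕ := ens b.offE b.its b.E (tot b.its)

def Blk.nmq (b : Blk) : ℕ :=
  lenN b.L * ((len b.its * (b.off * b.nf)) * (len b.its * (b.off * b.nf)))
    + b.dl * (len b.its * (b.nf * b.nf)) + lenN b.E * ((len b.its * (b.offE * b.nf)) * b.nf)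

noncomputable def Blk.q (b : Blk) (x : Pnt) : ℝ :=
  rsq b.B b.off x b.its b.L + b.dl * rz2 x b.its + rex b.BE b.offE x b.its b.E

lemma Blk.q_nonneg {b : Blk} {k : ℕ} {r : Rad} (h : b.ok k r = true) (x : Pnt) : 0 ≤ b.q x := by
  simp only [Blk.ok, Bool.and_eq_true, Bool.or_eq_true, Nat.blt_eq, Nat.ble_eq] at h
  obtain ⟨⟨⟨⟨⟨⟨_, _⟩, _⟩, _⟩, h5⟩, h6⟩, h7⟩ := h
  have h5 := Nat.eq_of_beq_eq_true h5
  have a1 := rsq_nonneg b.B b.off x b.its b.L
  have a2 := rz2_nonneg x b.its
  have a3 : (0 : ℝ) ≤ b.dl := Nat.cast_nonneg _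
  rcases h7 with h7 | h7
  · have hE : b.E = [] := by
      cases hE : b.E with
      | nil => rfl
      | cons a l => rw [hE] at h7; simp [emp] at h7
    have : rex b.BE b.offE x b.its b.E = 0 := by
      rw [hE]
      cases b.its <;> rfl
    rw [Blk.q, this]
    positivity
  · have a4 := rex_abs h5 h6 x b.its b.E
    have a5 : (((len b.its + 1) * b.offE : ℕ) : ℝ) ≤ ((2 * b.dl : ℕ) : ℝ) := by
      exact_mod_cast h7
    rw [len_eq] at a5
    push_cast at a5
    have a6 := neg_abs_le (rex b.BE b.offE x b.its b.E)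
    have a7 : ((b.its.length : ℝ) + 1) * b.offE * rz2 x b.its ≤ 2 * b.dl * rz2 x b.its :=
      mul_le_mul_of_nonneg_right a5 a2
    rw [Blk.q]
    nlinarith

lemma Blk.rep {b : Blk} {k : ℕ} {r : Rad} (h : b.ok k r = true) (x : Pnt) :
    Rep ((2 ^ k : ℕ) : ℤ) r x (b.N.add b.N) b.nmq ((b.vp : ℤ) - (b.vn : ℤ)) (b.q x) := by
  simp only [Blk.ok, Bool.and_eq_true, Nat.blt_eq] at h
  obtain ⟨⟨⟨⟨⟨⟨h1, _⟩, h3⟩, h4⟩, h5⟩, h6⟩, _⟩ := h
  have h3 := Nat.eq_of_beq_eq_true h3
  have h5 := Nat.eq_of_beq_eq_true h5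
  have hg := gdb_sound h1
  have r1 := rep_sqs h3 h4 (x := x) b.its hg b.L (n := b.its.length) le_rfl
  have r2 := rep_ex h5 h6 (x := x) b.its hg b.E (n := b.its.length) le_rfl
  have r3 := (rep_z2 (x := x) b.its hg).smul (b.dl : ℤ)
  have r4 := (r1.add r3).add r2
  have e1 : ((sqs b.B b.off b.its b.L (tot b.its) : ℕ) : ℤ) + (b.dl : ℤ) * ((z2 b.its : ℕ) : ℤ)
      + (((eps b.BE b.its b.E : ℕ) : ℤ) - ((ens b.offE b.its b.E (tot b.its) : ℕ) : ℤ)) =
      (b.vp : ℤ) - (b.vn : ℤ) := by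
    have e2 : b.vp = sqs b.B b.off b.its b.L (tot b.its)
      + (dz2 b.dl b.its + eps b.BE b.its b.E) := rfl
    rw [e2, Blk.vn, dz2_eq]; push_cast; ring
  have e3 : rsq b.B b.off x b.its b.L + ((b.dl : ℤ) : ℝ) * rz2 x b.its
      + rex b.BE b.offE x b.its b.E = b.q x := by
    rw [Blk.q]; push_cast; ring
  rw [e1, e3] at r4
  refine r4.mono (le_of_eq ?_)
  rw [Blk.nmq, len_eq, lenN_eq, lenN_eq]
  simp

/-! ### certificates -/

structure Cert where
  k : ℕ
  r : Rad
  N : Bd
  s : ℕ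
  target : Ex
  blocks : List Blk

/-- the integer point -/
def ipt (k : ℕ) (r : Rad) : IPt :=
  ⟨Int.ofNat (Nat.pow 2 (Nat.mul k r.ra)), Int.ofNat (Nat.pow 2 (Nat.mul k r.rb)),
    Int.ofNat (Nat.pow 2 (Nat.mul k r.rd)), Int.ofNat (Nat.pow 2 (Nat.mul k r.re)),
    Int.ofNat (Nat.pow 2 k), Int.ofNat (Nat.pow 2 (Nat.mul k r.rg)),
    Int.ofNat (Nat.pow 2 (Nat.mul k r.rh))⟩

lemma ipt_eq (k : ℕ) (r : Rad) : ipt k r = r.pt ((2 ^ k : ℕ) : ℤ) := by
  have h : ∀ n : ℕ, Int.ofNat (Nat.pow 2 (Nat.mul k n)) = ((2 ^ k : ℕ) : ℤ) ^ n := by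
    intro n
    show (((2 ^ (k * n) : ℕ)) : ℤ) = _
    push_cast; rw [pow_mul]
  have h1 : Int.ofNat (Nat.pow 2 k) = ((2 ^ k : ℕ) : ℤ) := rfl
  rw [ipt, Rad.pt, h, h, h, h, h, h, h1]

/-- sum of the values of the blocks -/
def bsum (X : IPt) : List Blk → ℤ
  | [] => 0
  | b :: bs => Int.add (Int.mul (b.mult.ev X) (Int.sub (Int.ofNat b.vp) (Int.ofNat b.vn)))
      (bsum X bs)

def bnm : List Blk → ℕ
  | [] => 0
  | b :: bs => Nat.add (Nat.mul b.mult.nm b.nmq) (bnm bs)

def bok (k : ℕ) (r : Rad) (N : Bd) : List Blk → Bool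
  | [] => true
  | b :: bs => b.ok k r && (b.mult.bd.add (b.N.add b.N)).leb N && bok k r N bs

noncomputable def brs (x : Pnt) : List Blk → ℝ
  | [] => 0
  | b :: bs => b.mult.re x * b.q x + brs x bs

/-- a test of equality of integers -/
def eqi : ℤ → ℤ → Bool
  | Int.ofNat a, Int.ofNat b => Nat.beq a b
  | Int.negSucc a, Int.negSucc b => Nat.beq a b
  | _, _ => false

lemma eqi_sound {a b : ℤ} (h : eqi a b = true) : a = b := by
  match a, b, h with
  | Int.ofNat a, Int.ofNat b, h => exact congrArg Int.ofNat (Nat.eq_of_beq_eq_true h)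
  | Int.negSucc a, Int.negSucc b, h => exact congrArg Int.negSucc (Nat.eq_of_beq_eq_true h)
  | Int.ofNat a, Int.negSucc b, h => exact absurd h (by simp [eqi])
  | Int.negSucc a, Int.ofNat b, h => exact absurd h (by simp [eqi])

def Cert.check (c : Cert) : Bool :=
  c.r.okb c.N && c.target.ok && c.target.bd.leb c.N && Nat.blt 0 c.s && bok c.k c.r c.N c.blocks &&
    Nat.blt (Nat.add (Nat.mul c.s c.target.nm) (bnm c.blocks)) (Nat.pow 2 c.k) &&
    eqi (Int.mul (Int.ofNat c.s) (c.target.ev (ipt c.k c.r))) (bsum (ipt c.k c.r) c.blocks)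

lemma bsum_rep {k : ℕ} {r : Rad} {N : Bd} (bs : List Blk) (h : bok k r N bs = true) (x : Pnt) :
    Rep ((2 ^ k : ℕ) : ℤ) r x N (bnm bs) (bsum (ipt k r) bs) (brs x bs) := by
  induction bs with
  | nil => exact Rep.zero _ _
  | cons b bs ih =>
    simp only [bok, Bool.and_eq_true] at h
    obtain ⟨⟨h1, h2⟩, h3⟩ := h
    have hm : b.mult.ok = true := by
      simp only [Blk.ok, Bool.and_eq_true] at h1
      exact h1.1.1.1.1.1.2
    have r1 := Ex.rep (w := ((2 ^ k : ℕ) : ℤ)) (r := r) (x := x) b.mult hm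
    have r2 := ((r1.mul (Blk.rep h1 x)).le (Bd.leb_sound h2)).add (ih h3)
    rw [← ipt_eq] at r2
    exact r2

theorem Cert.sound {c : Cert} (h : c.check = true) (x : Pnt) :
    (c.s : ℝ) * c.target.re x = brs x c.blocks := by
  simp only [Cert.check, Bool.and_eq_true, Nat.blt_eq] at h
  obtain ⟨⟨⟨⟨⟨⟨h1, h2⟩, h3⟩, h4⟩, h5⟩, h6⟩, h7⟩ := h
  have r1 := (Ex.rep (w := ((2 ^ c.k : ℕ) : ℤ)) (r := c.r) (x := x) c.target h2).le
    (Bd.leb_sound h3)
  have r2 := (bsum_rep c.blocks h5 x).smul (-1)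
  have r3 := (r1.smul (c.s : ℤ)).add r2
  have e7 := eqi_sound h7
  have e8 : (c.s : ℤ) * c.target.ev (c.r.pt ((2 ^ c.k : ℕ) : ℤ))
      + -1 * bsum (ipt c.k c.r) c.blocks = 0 := by
    rw [← ipt_eq]
    have : (c.s : ℤ) * c.target.ev (ipt c.k c.r) = bsum (ipt c.k c.r) c.blocks := e7
    rw [this]; ring
  rw [e8] at r3
  have r4 := r3.eq_zero (Rad.okb_sound h1) (by
    have h6' : c.s * c.target.nm + bnm c.blocks < 2 ^ c.k := h6
    simpa using h6')
  push_cast at r4
  linarith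

theorem sos_pos {c : Cert} (h : c.check = true) (x : Pnt)
    (hm : ∀ b ∈ c.blocks, 0 ≤ b.mult.re x) : 0 ≤ c.target.re x := by
  have h1 := Cert.sound h x
  have h2 : 0 ≤ brs x c.blocks := by
    have h5 : bok c.k c.r c.N c.blocks = true := by
      simp only [Cert.check, Bool.and_eq_true] at h
      exact h.1.1.2
    revert h5 hm
    induction c.blocks with
    | nil => intro _ _; exact le_rfl
    | cons b bs ih =>
      intro hm h5
      simp only [bok, Bool.and_eq_true] at h5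
      exact add_nonneg (mul_nonneg (hm b (by simp)) (Blk.q_nonneg h5.1.1 x))
        (ih (fun b' hb => hm b' (by simp [hb])) h5.2)
  have h3 : (0 : ℝ) < c.s := by
    simp only [Cert.check, Bool.and_eq_true, Nat.blt_eq] at h
    exact_mod_cast h.1.1.1.2
  rw [← h1] at h2
  exact nonneg_of_mul_nonneg_right h2 h3

end Pool.S8
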